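import Pool.Agent.H610R2.Dim.Final

/-!
# An oracle relative to which `NP` has intermediate `p`-dimension

Idea. A string `x` of length `n` belongs to the test language iff the oracle contains a hidden
pair `(x, y)` with `|y| = 2 n ^ 2`. The lengths are cut into blocks. In every block there are two
ways to choose the hidden pairs at random: by one random sample (then every string belongs to the
test language with probability `1/2`) or as the union of two independent samples (probability
`3/4`). A nondeterministic machine is hurt by one of them: if it accepts with probability `p` in
the first case, then it rejects with probability about `(1 - p) ^ 2` in the second case, so in one
of the two cases its answer can be predicted with probability `3/5`, and one of the two cases is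
good for half of the inputs of a given length in the middle of the block. The oracle reveals (in
the values of a gale, at exponentially long addresses) which case was chosen, so the gale wins
against every machine infinitely often. On the other hand no bit of the test language has a value
with probability more than `3/4`, and computations in time `2 ^ O(n)` do not find witnesses, so no
`s`-gale with `2 ^ s ≤ 5/4` succeeds on the test language.
-/

namespace Pool.Agent.Results.MP_e55146_lc.IntermediateDimension

open Pool.Agent.H578R2 Pool.Agent.H610R2.Dim

/-- There is an oracle `A` such that the `p^A`-dimension of `NP^A` is strictly between `0`
and `1`. -/
theorem result : ∃ A : Set (List Bool),
    0 < dimP A {L | InNP A L} ∧ dimP A {L | InNP A L} < 1 := main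

end Pool.Agent.Results.MP_e55146_lc.IntermediateDimension
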